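import Pool.Agent.Helper76.CV.Goals

/-!
# Packet CV-LBQ (project CV, MP_eec6f5_gt)

The scalars at a point of a tunnel.
-/

namespace Pool.Agent.Helper75.CV.LBQ

open Pool.Agent.Helper76.CV

variable {r : ℕ}

/-- The square of the norm of the spatial part of the normal vector. -/
lemma nsq (y ξ : E (r + 3)) (σ v : ℝ) (hv : 0 < v) :
    ‖y - (σ / v) • ξ‖ ^ 2 =
      ‖y‖ ^ 2 - 2 * σ * (inner ℝ y ξ / v) + σ ^ 2 * (‖ξ‖ ^ 2 / v ^ 2) := by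
  rw [norm_sub_sq_real, inner_smul_right, norm_smul, mul_pow, Real.norm_eq_abs, sq_abs]
  field_simp

/-- Squares. -/
lemma sqle {a k : ℝ} (h : |a| ≤ k) : a ^ 2 ≤ k ^ 2 := by
  have := pow_le_pow_left₀ (abs_nonneg a) h 2
  rwa [sq_abs] at this

lemma two_mul_le_sq (a b : ℝ) : 2 * (a * b) ≤ a ^ 2 + b ^ 2 := by
  have := two_mul_le_add_sq a b
  linarith

/-- Cauchy-Schwarz in `E × ℝ`, scalar form. -/
lemma csd (Y X p D b : ℝ) (hp : |p| ≤ Y * X) :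
    (p - D * b) ^ 2 ≤ (Y ^ 2 + D ^ 2) * (X ^ 2 + b ^ 2) := by
  have h1 : p ^ 2 ≤ (Y * X) ^ 2 := sqle hp
  have h2 : |p * (D * b)| ≤ (Y * X) * |D * b| := by
    rw [abs_mul]
    exact mul_le_mul_of_nonneg_right hp (abs_nonneg _)
  have h3 : -(p * (D * b)) ≤ (Y * X) * |D * b| := le_trans (neg_le_abs _) h2
  have h5 : (Y * X) * |D * b| = (Y * |b|) * (|D| * X) := by
    rw [abs_mul]; ring
  have h6 : (Y * b) ^ 2 = (Y * |b|) ^ 2 := by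
    rw [mul_pow, mul_pow, sq_abs]
  have h7 : (D * X) ^ 2 = (|D| * X) ^ 2 := by
    rw [mul_pow, mul_pow, sq_abs]
  have h4 : 2 * ((Y * X) * |D * b|) ≤ (Y * b) ^ 2 + (D * X) ^ 2 := by
    rw [h5, h6, h7]
    exact two_mul_le_sq _ _
  have e1 : (p - D * b) ^ 2 = p ^ 2 + 2 * (-(p * (D * b))) + (D * b) ^ 2 := by ring
  have e2 : (Y ^ 2 + D ^ 2) * (X ^ 2 + b ^ 2) =
      (Y * X) ^ 2 + (Y * b) ^ 2 + (D * X) ^ 2 + (D * b) ^ 2 := by ring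
  rw [e1, e2]
  linarith

lemma l1 (v : ℝ) (h : 38 / 1000 < v) : 9993 / 10000 * v ^ 2 ≤ v ^ 2 - 1 / 10 ^ 6 := by
  nlinarith

lemma l2 (X t : ℝ) (h0 : 0 ≤ X) (h1 : X ≤ 4 / 25) (ht : |t| ≤ 2 / 5 * X) :
    |X ^ 2 + t| ≤ 56 / 100 * X := by
  have h2 : |X ^ 2 + t| ≤ X ^ 2 + 2 / 5 * X := by
    refine le_trans (abs_add_le _ _) ?_
    rw [abs_of_nonneg (sq_nonneg X)]
    linarith
  nlinarith

lemma l3 (p g σ c Y2 : ℝ) (hp : |p| ≤ 56 / 100 * g) (hg1 : g ≤ 1)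
    (hg2 : 9993 / 10000 ≤ g ^ 2) (hσ : 0 ≤ σ)
    (hY : 1 - c - (78 / 1000 * σ ^ 2 + 15 / 10000) ≤ Y2) :
    658 / 1000 - c ≤ Y2 - 2 * σ * p + σ ^ 2 * g ^ 2 := by
  have h1 : p ≤ 56 / 100 := by
    have := le_abs_self p
    linarith
  have h2 : σ * p ≤ σ * (56 / 100) := mul_le_mul_of_nonneg_left h1 hσ
  have h3 : σ ^ 2 * (9993 / 10000) ≤ σ ^ 2 * g ^ 2 := mul_le_mul_of_nonneg_left hg2 (sq_nonneg _)
  have h4 : 0 ≤ (σ - 5600 / 9213) ^ 2 := sq_nonneg _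
  have h5 : (σ - 5600 / 9213) ^ 2 = σ ^ 2 - 11200 / 9213 * σ + (5600 / 9213) ^ 2 := by ring
  rw [h5] at h4
  linarith

lemma l4 (p g : ℝ) (hp : |p| ≤ 56 / 100 * g) : p ^ 2 ≤ 3136 / 10000 * g ^ 2 := by
  have := sqle hp
  have e : (56 / 100 * g) ^ 2 = 3136 / 10000 * g ^ 2 := by ring
  rwa [e] at this

lemma l5 (p g e : ℝ) (hp : |p| ≤ 56 / 100 * g) (he : |e| ≤ 4 / 10 ^ 12) (hg1 : g ≤ 1)
    (hg2 : 9993 / 10000 ≤ g ^ 2) : (p - e) ^ 2 ≤ 314 / 1000 * g ^ 2 := by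
  have h1 : |p - e| ≤ 56 / 100 * g + 4 / 10 ^ 12 := by
    refine le_trans (abs_sub _ _) ?_
    linarith
  have h2 := sqle h1
  have h3 : (56 / 100 * g + 4 / 10 ^ 12) ^ 2 =
      3136 / 10000 * g ^ 2 + 448 / 10 ^ 14 * g + 16 / 10 ^ 24 := by ring
  rw [h3] at h2
  linarith

/-- The scalar part, flat case. -/
lemma flat (Y p g D b σ N2 c c2 w v R : ℝ) (hw : 552 / 1000 ≤ w)
    (hv1 : 38 / 1000 < v) (hv2 : v < 4 / 25) (hσ : 0 ≤ σ) (hσv : 6 / 100 ≤ v ∨ 33 / 10 ≤ σ)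
    (hY : Y ^ 2 ≤ 1 - c) (hc0 : 0 ≤ c) (hc1 : c ≤ 1 / 10 ^ 6) (hc2 : |c2| ≤ 1 / 10 ^ 6)
    (hD1 : |D| ≤ 2 / 10 ^ 6) (hb1 : |b| ≤ 2 / 10 ^ 6)
    (hp : |p| ≤ 56 / 100 * g) (hg1 : g ≤ 1) (hg0 : 0 ≤ g)
    (hg2 : 9993 / 10000 ≤ g ^ 2) (hN : 658 / 1000 - c ≤ N2) (hRn : 0 ≤ R)
    (hR : R ^ 2 = N2 + (D + σ * b) ^ 2) (hcs : (p - D * b) ^ 2 ≤ (Y ^ 2 + D ^ 2) * (g ^ 2 + b ^ 2))
    (hR2 : R ^ 2 = (Y ^ 2 + D ^ 2) - 2 * σ * (p - D * b) + σ ^ 2 * (g ^ 2 + b ^ 2)) :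
    SD w c2 v σ 1 (Y ^ 2 + D ^ 2) (p - D * b) (g ^ 2 + b ^ 2) R := by
  have hDb : |D * b| ≤ 4 / 10 ^ 12 := by
    rw [abs_mul]
    calc |D| * |b| ≤ (2 / 10 ^ 6) * (2 / 10 ^ 6) :=
          mul_le_mul hD1 hb1 (abs_nonneg _) (by positivity)
      _ = 4 / 10 ^ 12 := by norm_num
  have e0 : ((2 : ℝ) / 10 ^ 6) ^ 2 = 4 / 10 ^ 12 := by norm_num
  have hb2 : b ^ 2 ≤ 4 / 10 ^ 12 := by
    have := sqle hb1
    rwa [e0] at this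
  have hD2 : D ^ 2 ≤ 4 / 10 ^ 12 := by
    have := sqle hD1
    rwa [e0] at this
  have hb20 := sq_nonneg b
  have hD20 := sq_nonneg D
  have hg22 : g ^ 2 ≤ 1 := pow_le_one₀ hg0 hg1
  have hRlow : 657 / 1000 ≤ R ^ 2 := by
    rw [hR]
    have := sq_nonneg (D + σ * b)
    linarith
  have hR34 : 3 / 4 ≤ R := by
    apply le_of_sq_le_sq _ hRn
    linarith
  have hw2 : 3 / 10 ≤ w ^ 2 := by
    have := pow_le_pow_left₀ (by norm_num : (0 : ℝ) ≤ 552 / 1000) hw 2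
    linarith
  have hw0 : 0 < w := by linarith
  refine ⟨hw0, hv1, hv2, hσ, hσv, ?_, ?_, ?_, hcs, ?_, hR2, le_refl _, ?_, ?_,
    Or.inl ⟨by norm_num, hR34⟩, ?_⟩
  · linarith
  · linarith
  · linarith
  · linarith
  · have := le_abs_self c2
    linarith
  · have := l5 p g (D * b) hp hDb hg1 hg2
    linarith
  · have h1 := neg_abs_le c2
    have h2 : 3 / 4 * (3 / 10) ≤ R * w ^ 2 := mul_le_mul hR34 hw2 (by norm_num) hRn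
    have h3 : 35 * R * w ^ 2 = 35 * (R * w ^ 2) := by ring
    rw [h3]
    linarith

/-- The scalar part, cap case. -/
lemma cap (Y p g D σ N2 c d c2 w v R : ℝ) (hw1 : 872 / 1000 ≤ w) (hw2 : w ≤ 1128 / 1000)
    (hv1 : 38 / 1000 < v) (hv2 : v < 4 / 25) (hσ : 0 ≤ σ) (hσv : 6 / 100 ≤ v ∨ 33 / 10 ≤ σ)
    (hY : Y ^ 2 ≤ 1 - c) (hc : CapOK c d c2) (hD : D = d / w)
    (hp : |p| ≤ 56 / 100 * g) (hpY : |p| ≤ Y * g) (hg1 : g ≤ 1) (hg0 : 0 ≤ g)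
    (hg2 : 9993 / 10000 ≤ g ^ 2) (hN0 : 0 ≤ N2) (hN : 658 / 1000 - c ≤ N2) (hRn : 0 ≤ R)
    (hR : R ^ 2 = N2 + D ^ 2) (hcs : p ^ 2 ≤ (Y ^ 2 + D ^ 2) * g ^ 2)
    (hR2 : R ^ 2 = (Y ^ 2 + D ^ 2) - 2 * σ * p + σ ^ 2 * g ^ 2) :
    ∃ f1, SD w c2 v σ f1 (Y ^ 2 + D ^ 2) p (g ^ 2) R := by
  obtain ⟨c0, c1, k1, k2, d1, hcas, -⟩ := hc
  have hw0 : 0 < w := by linarith
  have hw2a : 760384 / 10 ^ 6 ≤ w ^ 2 := by
    have := pow_le_pow_left₀ (by norm_num : (0 : ℝ) ≤ 872 / 1000) hw1 2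
    linarith [show ((872 : ℝ) / 1000) ^ 2 = 760384 / 10 ^ 6 by norm_num]
  have hw2b : w ^ 2 ≤ 1272384 / 10 ^ 6 := by
    have := pow_le_pow_left₀ hw0.le hw2 2
    linarith [show ((1128 : ℝ) / 1000) ^ 2 = 1272384 / 10 ^ 6 by norm_num]
  have hD2 : D ^ 2 * w ^ 2 = d ^ 2 := by
    rw [hD]; field_simp
  have hD20 := sq_nonneg D
  have hD2b : D ^ 2 ≤ 474 / 100 := by
    have h1 : D ^ 2 * (760384 / 10 ^ 6) ≤ D ^ 2 * w ^ 2 := mul_le_mul_of_nonneg_left hw2a hD20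
    rw [hD2] at h1
    linarith
  have hD2c : d ^ 2 ≤ 12725 / 10000 * D ^ 2 := by
    have h1 : D ^ 2 * w ^ 2 ≤ D ^ 2 * (1272384 / 10 ^ 6) := mul_le_mul_of_nonneg_left hw2b hD20
    rw [hD2] at h1
    linarith
  have hy0 : 0 ≤ Y ^ 2 := sq_nonneg _
  have hg22 : g ^ 2 ≤ 1 := pow_le_one₀ hg0 hg1
  have hA : Y ^ 2 + D ^ 2 ≤ 6 := by linarith
  have hp2 : p ^ 2 ≤ 314 / 1000 * g ^ 2 := by
    have := l4 p g hp
    linarith
  have hρ1 : 999 / 1000 ≤ g ^ 2 := by linarith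
  have hρ2 : g ^ 2 ≤ 1001 / 1000 := by linarith
  have hneg : 3 / 4 ≤ R → -c2 ≤ 35 * R * w ^ 2 := by
    intro hR34
    have h2 : 3 / 4 * (760384 / 10 ^ 6) ≤ R * w ^ 2 :=
      mul_le_mul hR34 hw2a (by norm_num) hRn
    have h3 : 35 * R * w ^ 2 = 35 * (R * w ^ 2) := by ring
    rw [h3]
    linarith
  have caseB : 12725 / 10000 * (c + 425 / 10000) ≤ d ^ 2 →
      ∃ f1, SD w c2 v σ f1 (Y ^ 2 + D ^ 2) p (g ^ 2) R := by
    intro hB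
    have hRlow : 7 / 10 ≤ R ^ 2 := by rw [hR]; linarith
    have hR34 : 3 / 4 ≤ R := by
      apply le_of_sq_le_sq _ hRn
      linarith
    exact ⟨57 / 5, ⟨hw0, hv1, hv2, hσ, hσv, hρ1, hρ2, hA, hcs, by linarith, hR2, by norm_num,
      by linarith, hp2, Or.inr (Or.inl ⟨le_refl _, hRlow⟩), hneg hR34⟩⟩
  rcases hcas with ⟨hA', hA'' | hA''⟩ | ⟨hC1, hC2, hC3, hC4⟩
  · have hRlow : 563 / 1000 ≤ R ^ 2 := by rw [hR]; linarith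
    have hR34 : 3 / 4 ≤ R := by
      apply le_of_sq_le_sq _ hRn
      linarith
    exact ⟨11 / 2, ⟨hw0, hv1, hv2, hσ, hσv, hρ1, hρ2, hA, hcs, by linarith, hR2, by norm_num,
      by linarith, hp2, Or.inl ⟨le_refl _, hR34⟩, hneg hR34⟩⟩
  · exact caseB hA''
  · have hRlow : 28 / 100 ≤ R ^ 2 := by rw [hR]; linarith
    have hRpos : 0 < R := by
      rcases hRn.eq_or_lt with h0 | h0
      · rw [← h0] at hRlow; norm_num at hRlow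
      · exact h0
    have hM : p ^ 2 ≤ 1 / 10 * g ^ 2 := by
      have h3 := sqle hpY
      rw [mul_pow] at h3
      have h4 : Y ^ 2 * g ^ 2 ≤ 1 / 10 * g ^ 2 :=
        mul_le_mul_of_nonneg_right (by linarith) (sq_nonneg _)
      linarith
    have hng : -c2 ≤ 35 * R * w ^ 2 := by
      have h5 : d ^ 2 ≤ (R * w) ^ 2 := by
        rw [mul_pow, hR, ← hD2]
        apply mul_le_mul_of_nonneg_right _ (sq_nonneg _)
        linarith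
      have h6 : (-c2) ^ 2 ≤ (22 * (R * w)) ^ 2 := by
        have e1 : (-c2) ^ 2 = c2 ^ 2 := by ring
        have e2 : (22 * (R * w)) ^ 2 = 484 * (R * w) ^ 2 := by ring
        rw [e1, e2]
        linarith [sq_nonneg (R * w)]
      have h7 : -c2 ≤ 22 * (R * w) := by
        apply le_of_sq_le_sq h6
        positivity
      have h8 : 22 * (R * w) ≤ 35 * R * w ^ 2 := by
        have h9 : 35 * R * w ^ 2 = 35 * w * (R * w) := by ring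
        rw [h9]
        apply mul_le_mul_of_nonneg_right _ (by positivity)
        linarith
      linarith
    exact ⟨1, ⟨hw0, hv1, hv2, hσ, hσv, hρ1, hρ2, hA, hcs, hRpos, hR2, le_refl _,
      by linarith, hp2, Or.inr (Or.inr ⟨by norm_num, hRlow, hM⟩), hng⟩⟩

/-- The reduction to the scalars. -/
theorem t : LBQ := by
  intro r P y a0 a1 a2 c d c2 v σ σ1 h
  have hv : 0 < v := by linarith [h.v1]
  have hv16 : v < 4 / 25 := h.v2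
  have hv38 : 38 / 1000 < v := h.v1
  have hσ0 : 0 ≤ σ := h.σ0
  have hny : ‖y‖ ^ 2 ≤ 1 - c := h.ny
  have hnl : 1 - c - (78 / 1000 * σ ^ 2 + 15 / 10000) ≤ ‖y‖ ^ 2 := h.nl
  obtain ⟨ξ, hξ⟩ : ∃ ξ, ξ = P y - a0 := ⟨_, rfl⟩
  obtain ⟨w, hw⟩ : ∃ w, w = wr y := ⟨_, rfl⟩
  have hPξ : P ξ = ξ := by rw [hξ, map_sub, h.idem, h.Pa]
  have hX2 : ‖ξ‖ ^ 2 = v ^ 2 - 1 / 10 ^ 6 := by
    have := h.v0
    rw [← hξ] at this
    linarith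
  have hs : inner ℝ y ξ = ‖ξ‖ ^ 2 + inner ℝ a0 ξ := by
    have e1 : inner ℝ y ξ = inner ℝ (P y) ξ := by
      rw [h.sym y ξ, hPξ]
    have e2 : P y = ξ + a0 := by rw [hξ]; abel
    rw [e1, e2, inner_add_left, real_inner_self_eq_norm_sq]
  have ha0 : |inner ℝ a0 ξ| ≤ 2 / 5 * ‖ξ‖ := by
    have := abs_real_inner_le_norm a0 ξ
    rw [h.na] at this
    exact this
  have hCS : |inner ℝ y ξ| ≤ ‖y‖ * ‖ξ‖ := abs_real_inner_le_norm y ξ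
  have hβle : |inner ℝ ξ a1| ≤ ‖ξ‖ * ‖a1‖ := abs_real_inner_le_norm ξ a1
  have hN2 := nsq y ξ σ v hv
  have hX0 : 0 ≤ ‖ξ‖ := norm_nonneg _
  have hXv : ‖ξ‖ ≤ v := by
    apply le_of_sq_le_sq _ hv.le
    rw [hX2]; linarith
  have hg0 : 0 ≤ ‖ξ‖ / v := by positivity
  have hg1 : ‖ξ‖ / v ≤ 1 := by rw [div_le_one hv]; exact hXv
  have hg2 : 9993 / 10000 ≤ (‖ξ‖ / v) ^ 2 := by
    rw [div_pow, le_div_iff₀ (by positivity), hX2]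
    exact l1 v hv38
  have hsle : |inner ℝ y ξ| ≤ 56 / 100 * ‖ξ‖ := by
    rw [hs]
    exact l2 _ _ hX0 (by linarith) ha0
  have hple : |inner ℝ y ξ / v| ≤ 56 / 100 * (‖ξ‖ / v) := by
    rw [abs_div, abs_of_pos hv, div_le_iff₀ hv]
    have : 56 / 100 * (‖ξ‖ / v) * v = 56 / 100 * ‖ξ‖ := by field_simp
    rw [this]; exact hsle
  have hpY : |inner ℝ y ξ / v| ≤ ‖y‖ * (‖ξ‖ / v) := by
    rw [abs_div, abs_of_pos hv, div_le_iff₀ hv]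
    have : ‖y‖ * (‖ξ‖ / v) * v = ‖y‖ * ‖ξ‖ := by field_simp
    rw [this]; exact hCS
  rw [← div_pow] at hN2
  have hN20 : 0 ≤ ‖y - (σ / v) • ξ‖ ^ 2 := sq_nonneg _
  have hw0 : 0 < w := by
    rcases h.cas with ⟨_, _, _, h4⟩ | ⟨_, _, _, h4, _⟩
    · rw [hw]; linarith
    · rw [hw]; linarith
  have hm : (d + σ / v * inner ℝ ξ a1) / w = d / w + σ * (inner ℝ ξ a1 / (v * w)) := by
    field_simp
  have hcas := h.cas
  have hσv := h.σv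
  rw [← hw] at hcas
  rw [← hξ, ← hw, hm, ← div_pow]
  clear h
  generalize hNN : ‖y - (σ / v) • ξ‖ ^ 2 = N2 at *
  generalize hpp : inner ℝ y ξ / v = p at *
  generalize hgg : ‖ξ‖ / v = g at *
  generalize hYY : ‖y‖ = Y at *
  have hNlow : 658 / 1000 - c ≤ N2 := by
    rw [hN2]
    exact l3 p g σ c (Y ^ 2) hple hg1 hg2 hσ0 hnl
  have hRn : 0 ≤ √(N2 + (d / w + σ * (inner ℝ ξ a1 / (v * w))) ^ 2) := Real.sqrt_nonneg _
  have hRsq : √(N2 + (d / w + σ * (inner ℝ ξ a1 / (v * w))) ^ 2) ^ 2 =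
      N2 + (d / w + σ * (inner ℝ ξ a1 / (v * w))) ^ 2 := Real.sq_sqrt (by positivity)
  rcases hcas with ⟨⟨f1, f2, f3, f4⟩, f5, f6, f7⟩ | ⟨hc, f5, f6, f7, f8⟩
  · have hb1 : |inner ℝ ξ a1 / (v * w)| ≤ 2 / 10 ^ 6 := by
      rw [abs_div, abs_of_pos (mul_pos hv hw0), div_le_iff₀ (mul_pos hv hw0)]
      have h1 : ‖ξ‖ * ‖a1‖ ≤ v * (1 / 10 ^ 6) :=
        mul_le_mul hXv f5 (norm_nonneg _) hv.le
      have h2 : v * (552 / 1000) ≤ v * w := mul_le_mul_of_nonneg_left f7 hv.le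
      linarith
    have hD1 : |d / w| ≤ 2 / 10 ^ 6 := by
      rw [abs_div, abs_of_pos hw0, div_le_iff₀ hw0]
      linarith
    generalize hRR : √(N2 + (d / w + σ * (inner ℝ ξ a1 / (v * w))) ^ 2) = R at *
    generalize hbb : inner ℝ ξ a1 / (v * w) = b at *
    generalize hDD : d / w = D at *
    have hcs := csd Y g p D b hpY
    have hR2 : R ^ 2 = (Y ^ 2 + D ^ 2) - 2 * σ * (p - D * b) + σ ^ 2 * (g ^ 2 + b ^ 2) := by
      rw [hRsq, hN2]; ring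
    exact ⟨1, flat Y p g D b σ N2 c c2 w v R f7 hv38 hv16 hσ0 hσv hny f1 f2 f4 hD1 hb1 hple hg1
      hg0 hg2 hNlow hRn hRsq hcs hR2⟩
  · have hb0 : inner ℝ ξ a1 / (v * w) = 0 := by
      rw [f5, inner_zero_right, zero_div]
    rw [hb0] at hRn hRsq ⊢
    have e1 : p - d / w * 0 = p := by ring
    have e2 : g ^ 2 + (0 : ℝ) ^ 2 = g ^ 2 := by ring
    have e3 : d / w + σ * 0 = d / w := by ring
    rw [e3] at hRn hRsq ⊢
    rw [e1, e2]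
    generalize hRR : √(N2 + (d / w) ^ 2) = R at *
    have hcs := csd Y g p (d / w) 0 hpY
    rw [e1, e2] at hcs
    have hR2 : R ^ 2 = (Y ^ 2 + (d / w) ^ 2) - 2 * σ * p + σ ^ 2 * g ^ 2 := by
      rw [hRsq, hN2]; ring
    exact cap Y p g (d / w) σ N2 c d c2 w v R f7 f8 hv38 hv16 hσ0 hσv hny hc rfl hple hpY hg1
      hg0 hg2 hN20 hNlow hRn hRsq hcs hR2

end Pool.Agent.Helper75.CV.LBQ
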